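import Pool.Agent.helper63.TI.SpecF
import Pool.Agent.helper33.TK.PL1

set_option autoImplicit false

namespace Pool.Agent.TI

open Polynomial NumberField Pool.Agent.GJ Pool.Agent.TK
open Pool.Agent.FJ (VT Om chiO IsFrobO rf rs)
open scoped NumberField Topology

noncomputable section

theorem FD2_ev {Q : Type} [CommRing Q] (n : ℤ) (g : ℤ[X]) :
    aeval (n : Q) g = ((g.eval n : ℤ) : Q) := by
  have h := aeval_algebraMap_apply_eq_algebraMap_eval (A := Q) n g
  rw [eq_intCast, eq_intCast] at h
  exact h

theorem FD2_mem (O : ValuationSubring Om) (x : Om) (hx : IsIntegral ℤ x) : x ∈ O := by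
  have hi' : IsIntegral O x := hx.tower_top (A := O)
  obtain ⟨y, hy⟩ := (IsIntegrallyClosed.isIntegral_iff (R := O) (K := Om)).mp hi'
  rw [← hy]
  exact y.2

theorem FD2_rs (O : ValuationSubring Om) (x : O) (g : ℤ[X]) (h : aeval (x : Om) g = 0) :
    aeval (rs O x) g = 0 := by
  have h1 : aeval x g = 0 := by
    apply Subtype.ext
    have h2 := Polynomial.aeval_algebraMap_apply Om x g
    have h3 : algebraMap O Om x = (x : Om) := rfl
    rw [h3, h] at h2
    exact h2.symm
  have h4 := Polynomial.aeval_algHom_apply ((rs O).toIntAlgHom) x g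
  rw [h1, map_zero] at h4
  exact h4

/-- a nonzero algebraic integer is a unit at almost all places -/
theorem FD2_unit (z : Om) (hz : IsIntegral ℤ z) (h0 : z ≠ 0) : ∃ D : ℕ, 0 < D ∧
    ∀ (p : ℕ) [Fact p.Prime] (O : ValuationSubring Om) [CharP (rf O) p] (y : O), (y : Om) = z → ¬ p ∣ D → rs O y ≠ 0 := by
  obtain ⟨q, hq0, hq⟩ := hz.isAlgebraic.exists_nonzero_coeff_and_aeval_eq_zero
    (mem_nonZeroDivisors_of_ne_zero h0)
  refine ⟨(q.coeff 0).natAbs, Int.natAbs_pos.2 hq0, ?_⟩
  intro p _ O _ y hy hp h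
  apply hp
  have h1 := FD2_rs O y q (by rw [hy]; exact hq)
  rw [h] at h1
  rw [← coeff_zero_eq_aeval_zero', eq_intCast] at h1
  rw [CharP.intCast_eq_zero_iff (rf O) p] at h1
  exact Int.natCast_dvd.1 h1

theorem FD2 : FD2_stmt := by
  classical
  intro f hf hsep
  have hfm : (f.map (algebraMap ℤ Om)).Monic := hf.map _
  have hspl : (f.map (algebraMap ℤ Om)).Splits := IsAlgClosed.splits _
  have hroots : ∀ x : Om, x ∈ (f.map (algebraMap ℤ Om)).roots ↔ aeval x f = 0 := by
    intro x
    rw [mem_roots hfm.ne_zero, IsRoot.def, eval_map_algebraMap]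
  let S : Finset Om := (f.map (algebraMap ℤ Om)).roots.toFinset
  have hS : ∀ x : Om, x ∈ S ↔ aeval x f = 0 := by
    intro x
    rw [← hroots x]
    exact Multiset.mem_toFinset
  have hint : ∀ x : Om, aeval x f = 0 → IsIntegral ℤ x := fun x hx => ⟨f, hf, hx⟩
  have hD : ∀ z : Om, ∃ D : ℕ, 0 < D ∧ (IsIntegral ℤ z → z ≠ 0 →
      ∀ (p : ℕ) [Fact p.Prime] (O : ValuationSubring Om) [CharP (rf O) p] (y : O), (y : Om) = z → ¬ p ∣ D →
        rs O y ≠ 0) := by
    intro z
    by_cases hz : IsIntegral ℤ z ∧ z ≠ 0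
    · obtain ⟨D, hD0, hD⟩ := FD2_unit z hz.1 hz.2
      exact ⟨D, hD0, fun _ _ => hD⟩
    · exact ⟨1, one_pos, fun h1 h2 => absurd ⟨h1, h2⟩ hz⟩
  choose D hD0 hD using hD
  refine ⟨∏ x ∈ S, ∏ y ∈ S, D (x - y), Finset.prod_pos fun x _ => Finset.prod_pos fun y _ => hD0 _, ?_⟩
  intro p hpF O hch φ hφ hpD
  have hp : p.Prime := Fact.out
  have hmem : ∀ x : Om, aeval x f = 0 → x ∈ O := fun x hx => FD2_mem O x (hint x hx)
  -- different roots have different reductions
  have hinj : ∀ x y : O, aeval (x : Om) f = 0 → aeval (y : Om) f = 0 → rs O x = rs O y → x = y := by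
    intro x y hx hy hxy
    by_contra hne
    have hne' : (x : Om) - (y : Om) ≠ 0 := by
      intro h
      exact hne (Subtype.ext (sub_eq_zero.1 h))
    have hpxy : ¬ p ∣ D ((x : Om) - (y : Om)) := by
      intro h
      apply hpD
      refine h.trans ?_
      refine (Finset.dvd_prod_of_mem (fun y : Om => D ((x : Om) - y)) ((hS _).2 hy)).trans ?_
      exact Finset.dvd_prod_of_mem (fun x : Om => ∏ y ∈ S, D (x - y)) ((hS _).2 hx)
    apply hD ((x : Om) - (y : Om)) ((hint _ hx).sub (hint _ hy)) hne' p O (x - y) rfl hpxy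
    rw [map_sub, hxy, sub_self]
  have hφ0 : ∀ x : Om, aeval x f = 0 → aeval (φ x) f = 0 := by
    intro x hx
    have h := Polynomial.aeval_algHom_apply (φ : Om →+* Om).toIntAlgHom x f
    rw [hx, map_zero] at h
    exact h
  -- Frobenius on the reductions of the roots
  have hfr : ∀ (x y : O), (y : Om) = φ (x : Om) → rs O y = rs O x ^ p := by
    intro x y hxy
    obtain ⟨y', hy', h⟩ := hφ x
    have : y = y' := Subtype.ext (by rw [hxy, hy'])
    rw [this, h]
  have hcast : ∀ x : {x : Om // aeval x f = 0 ∧ φ x = x},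
      ∃ a : ZMod p, ZMod.castHom (dvd_refl p) (rf O) a = rs O ⟨x.1, hmem x.1 x.2.1⟩ := by
    intro x
    have h1 := hfr ⟨x.1, hmem x.1 x.2.1⟩ ⟨x.1, hmem x.1 x.2.1⟩ x.2.2.symm
    obtain ⟨a, ha⟩ := PL1_bot p _ h1.symm
    exact ⟨(a : ZMod p), by rw [map_natCast, ha]⟩
  choose F hF using hcast
  have hinj2 : Function.Injective (ZMod.castHom (dvd_refl p) (rf O)) := RingHom.injective _
  have hroot : ∀ x, aeval (F x) f = 0 := by
    intro x
    apply hinj2
    rw [map_zero]
    have h := Polynomial.aeval_algHom_apply (ZMod.castHom (dvd_refl p) (rf O)).toIntAlgHom (F x) f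
    have h2 : (ZMod.castHom (dvd_refl p) (rf O)).toIntAlgHom (aeval (F x) f) =
        ZMod.castHom (dvd_refl p) (rf O) (aeval (F x) f) := rfl
    rw [← h2, ← h]
    change aeval (ZMod.castHom (dvd_refl p) (rf O) (F x)) f = 0
    rw [hF x]
    exact FD2_rs O _ f x.2.1
  have hbij : Function.Bijective (fun x : {x : Om // aeval x f = 0 ∧ φ x = x} =>
      (⟨F x, hroot x⟩ : {a : ZMod p // aeval a f = 0})) := by
    constructor
    · intro x y hxy
      have h1 : F x = F y := congrArg Subtype.val hxy
      have h2 := hF x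
      rw [h1, hF y] at h2
      have h3 := hinj _ _ y.2.1 x.2.1 h2
      exact Subtype.ext (congrArg Subtype.val h3).symm
    · rintro ⟨a, ha⟩
      obtain ⟨n, rfl⟩ : ∃ n : ℤ, (n : ZMod p) = a := ⟨(a.val : ℤ), by
        rw [Int.cast_natCast, ZMod.natCast_zmod_val]⟩
      rw [FD2_ev, ZMod.intCast_zmod_eq_zero_iff_dvd] at ha
      have h1 := hspl.eval_eq_prod_roots_of_monic hfm (n : Om)
      have h0 : aeval (n : Om) f = ((f.eval n : ℤ) : Om) := by
        have h := aeval_algebraMap_apply_eq_algebraMap_eval (A := Om) n f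
        rw [eq_intCast, eq_intCast] at h
        exact h
      rw [eval_map_algebraMap, h0] at h1
      -- lift the roots to `O`
      have h2 : ∃ x : O, aeval (x : Om) f = 0 ∧ rs O x = (n : rf O) := by
        by_contra hcon
        push Not at hcon
        let g : Om → O := fun x => if h : x ∈ O then ⟨x, h⟩ else 0
        have hg : ∀ x ∈ (f.map (algebraMap ℤ Om)).roots, ((g x : O) : Om) = x := by
          intro x hx
          have h3 := hmem x ((hroots x).1 hx)
          change ((if h : x ∈ O then (⟨x, h⟩ : O) else 0 : O) : Om) = x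
          rw [dif_pos h3]
        have h4 : ((f.eval n : ℤ) : O) = (((f.map (algebraMap ℤ Om)).roots).map (fun x => (n : O) - g x)).prod := by
          apply Subtype.ext
          have h5 : ((((f.map (algebraMap ℤ Om)).roots).map (fun x => (n : O) - g x)).prod : O) =
              ((((f.map (algebraMap ℤ Om)).roots).map (fun x => (n : O) - g x)).prod : O) := rfl
          have h6 := map_multiset_prod (algebraMap O Om) (((f.map (algebraMap ℤ Om)).roots).map (fun x => (n : O) - g x))
          rw [Multiset.map_map] at h6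
          have h7 : Multiset.map (⇑(algebraMap O Om) ∘ fun x => (n : O) - g x) (f.map (algebraMap ℤ Om)).roots =
              Multiset.map (fun a => (n : Om) - a) (f.map (algebraMap ℤ Om)).roots := by
            apply Multiset.map_congr rfl
            intro x hx
            change ((((n : O) - g x : O)) : Om) = (n : Om) - x
            push_cast
            rw [hg x hx]
          rw [h7, ← h1] at h6
          change (((f.eval n : ℤ) : O) : Om) = algebraMap O Om _
          rw [h6]
          push_cast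
          rfl
        have h8 := congrArg (rs O) h4
        rw [map_intCast, (CharP.intCast_eq_zero_iff (rf O) p _).2 ha, map_multiset_prod, Multiset.map_map] at h8
        have h9 := Multiset.prod_eq_zero_iff.1 h8.symm
        rw [Multiset.mem_map] at h9
        obtain ⟨x, hx, hx0⟩ := h9
        have h10 : rs O ((n : O) - g x) = 0 := hx0
        rw [map_sub, map_intCast, sub_eq_zero] at h10
        exact hcon (g x) (by rw [hg x hx]; exact (hroots x).1 hx) h10.symm
      obtain ⟨x, hx, hxn⟩ := h2
      have hφx : φ (x : Om) = x := by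
        have h3 := hφ0 _ hx
        have h4 := hfr x ⟨φ (x : Om), hmem _ h3⟩ rfl
        have h5 : rs O ⟨φ (x : Om), hmem _ h3⟩ = rs O x := by
          rw [h4, hxn]
          have h6 : ((n : rf O)) = ZMod.castHom (dvd_refl p) (rf O) (n : ZMod p) := by rw [map_intCast]
          rw [h6, ← map_pow, ZMod.pow_card]
        have h6 := hinj _ _ h3 hx h5
        exact congrArg Subtype.val h6
      refine ⟨⟨x, hx, hφx⟩, ?_⟩
      apply Subtype.ext
      apply hinj2
      change ZMod.castHom (dvd_refl p) (rf O) (F ⟨x, hx, hφx⟩) = ZMod.castHom (dvd_refl p) (rf O) (n : ZMod p)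
      rw [hF, map_intCast]
      exact hxn
  exact (Nat.card_congr (Equiv.ofBijective _ hbij)).symm

end

end Pool.Agent.TI
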