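import Pool.Agent.helper63.TI.SpecF
import Pool.Agent.helper25.TK.KE6

set_option autoImplicit false

namespace Pool.Agent.TI

open Polynomial NumberField Pool.Agent.GJ Pool.Agent.TK
open Pool.Agent.FJ (VT Om chiO IsFrobO rf rs)
open scoped NumberField Topology

noncomputable section

variable {M : Type} [Field M] [NumberField M]

theorem FD1_ev {Q : Type} [CommRing Q] (n : ℤ) (g : ℤ[X]) :
    aeval (n : Q) g = ((g.eval n : ℤ) : Q) := by
  have h := aeval_algebraMap_apply_eq_algebraMap_eval (A := Q) n g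
  rw [eq_intCast, eq_intCast] at h
  exact h

theorem FD1_den (β : 𝓞 M) (hβ : Algebra.adjoin ℚ {(β : M)} = ⊤) :
    ∃ D : ℕ, 0 < D ∧ ∀ α : 𝓞 M, ∃ g : ℤ[X], (D : 𝓞 M) * α = aeval β g := by
  obtain ⟨D, hD, h⟩ := KE6_den (L := ℚ) (L' := M) β hβ
  refine ⟨D, hD, fun α => ?_⟩
  refine Algebra.adjoin_induction (p := fun x _ => ∃ g : ℤ[X], x = aeval β g) ?_ ?_ ?_ ?_ (h α)
  · intro x hx
    rw [Set.mem_singleton_iff] at hx
    exact ⟨X, by rw [aeval_X, hx]⟩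
  · intro r
    refine ⟨C (Rat.ringOfIntegersEquiv r), ?_⟩
    rw [aeval_C, eq_intCast]
    have h1 : r = ((Rat.ringOfIntegersEquiv r : ℤ) : 𝓞 ℚ) := by
      apply Rat.ringOfIntegersEquiv.injective
      rw [map_intCast]
      simp
    conv_lhs => rw [h1]
    rw [map_intCast]
  · rintro x y _ _ ⟨g, hg⟩ ⟨g', hg'⟩
    exact ⟨g + g', by rw [map_add, hg, hg']⟩
  · rintro x y _ _ ⟨g, hg⟩ ⟨g', hg'⟩
    exact ⟨g * g', by rw [map_mul, hg, hg']⟩

theorem FD1_bez (p D : ℕ) (hp : p.Prime) (hpD : ¬ p ∣ D) (R : Type) [CommRing R] :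
    ∃ u v : ℤ, (u : R) * D + v * p = 1 := by
  have hcop : IsCoprime (D : ℤ) (p : ℤ) := by
    rw [Nat.isCoprime_iff_coprime]
    exact ((Nat.Prime.coprime_iff_not_dvd hp).2 hpD).symm
  obtain ⟨u, v, huv⟩ := hcop
  refine ⟨u, v, ?_⟩
  have := congrArg (fun t : ℤ => (t : R)) huv
  push_cast at this
  exact this

theorem FD1_dvd (I : Ideal (𝓞 M)) (p : ℕ) (hp : p.Prime) (hpI : (p : 𝓞 M) ∈ I) (h1 : I ≠ ⊤) (m : ℤ) :
    (m : 𝓞 M) ∈ I ↔ (p : ℤ) ∣ m := by
  constructor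
  · intro h
    by_contra hm
    apply h1
    rw [Ideal.eq_top_iff_one]
    have hcop : IsCoprime (p : ℤ) m := by
      rw [Prime.coprime_iff_not_dvd (Nat.prime_iff_prime_int.1 hp)]
      exact hm
    obtain ⟨u, v, huv⟩ := hcop
    have h2 := congrArg (fun t : ℤ => (t : 𝓞 M)) huv
    push_cast at h2
    rw [← h2]
    exact I.add_mem (I.mul_mem_left _ hpI) (I.mul_mem_left _ h)
  · rintro ⟨c, rfl⟩
    push_cast
    exact I.mul_mem_right _ hpI

/-- `D x = g(β)` modulo `I` -/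
theorem FD1_sub (I : Ideal (𝓞 M)) (β : 𝓞 M) (n : ℤ) (hn : β - (n : 𝓞 M) ∈ I) (g : ℤ[X]) :
    aeval β g - ((g.eval n : ℤ) : 𝓞 M) ∈ I := by
  rw [← Ideal.Quotient.eq] at hn ⊢
  rw [map_intCast] at hn ⊢
  rw [← FD1_ev, ← hn]
  have h := Polynomial.aeval_algHom_apply (Ideal.Quotient.mkₐ ℤ I) β g
  exact h.symm

theorem FD1_mem (I : Ideal (𝓞 M)) (p D : ℕ) (hp : p.Prime) (hpD : ¬ p ∣ D) (hpI : (p : 𝓞 M) ∈ I) (h1 : I ≠ ⊤)
    (β : 𝓞 M) (n : ℤ) (hn : β - (n : 𝓞 M) ∈ I) (x : 𝓞 M) (g : ℤ[X]) (hg : (D : 𝓞 M) * x = aeval β g) :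
    x ∈ I ↔ (p : ℤ) ∣ g.eval n := by
  rw [← FD1_dvd I p hp hpI h1]
  have h2 := FD1_sub I β n hn g
  rw [← hg] at h2
  constructor
  · intro hx
    have h3 := I.sub_mem (I.mul_mem_left (D : 𝓞 M) hx) h2
    rwa [sub_sub_cancel] at h3
  · intro hx
    have h3 := I.add_mem h2 hx
    rw [sub_add_cancel] at h3
    obtain ⟨u, v, huv⟩ := FD1_bez p D hp hpD (𝓞 M)
    have h4 : x = (u : 𝓞 M) * ((D : 𝓞 M) * x) + (v * x) * p := by
      linear_combination (-x) * huv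
    rw [h4]
    exact I.add_mem (I.mul_mem_left _ h3) (I.mul_mem_left _ hpI)

theorem FD1_res (I : Ideal (𝓞 M)) (p D : ℕ) (hp : p.Prime) (hpD : ¬ p ∣ D) (hpI : (p : 𝓞 M) ∈ I)
    (β : 𝓞 M) (n : ℤ) (hn : β - (n : 𝓞 M) ∈ I) (hD : ∀ α : 𝓞 M, ∃ g : ℤ[X], (D : 𝓞 M) * α = aeval β g) (α : 𝓞 M) :
    ∃ m : ℤ, α - (m : 𝓞 M) ∈ I := by
  obtain ⟨g, hg⟩ := hD α
  have h2 := FD1_sub I β n hn g
  rw [← hg] at h2
  obtain ⟨u, v, huv⟩ := FD1_bez p D hp hpD (𝓞 M)
  refine ⟨u * g.eval n, ?_⟩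
  have h4 : α - ((u * g.eval n : ℤ) : 𝓞 M) =
      (u : 𝓞 M) * ((D : 𝓞 M) * α - ((g.eval n : ℤ) : 𝓞 M)) + (v * α) * p := by
    push_cast
    linear_combination (-α) * huv
  rw [h4]
  exact I.add_mem (I.mul_mem_left _ h2) (I.mul_mem_left _ hpI)

theorem FD1_card (I : Ideal (𝓞 M)) (p : ℕ) (hp : p.Prime) (hpI : (p : 𝓞 M) ∈ I) (h1 : I ≠ ⊤)
    (hres : ∀ α : 𝓞 M, ∃ m : ℤ, α - (m : 𝓞 M) ∈ I) : Ideal.absNorm I = p := by
  have hF : Fact p.Prime := ⟨hp⟩
  have hnt : Nontrivial (𝓞 M ⧸ I) := Ideal.Quotient.nontrivial_iff.2 h1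
  have hp0 : (p : 𝓞 M ⧸ I) = 0 := by
    rw [← map_natCast (Ideal.Quotient.mk I), Ideal.Quotient.eq_zero_iff_mem]
    exact hpI
  have hch : CharP (𝓞 M ⧸ I) p := (CharP.charP_iff_prime_eq_zero hp).mpr hp0
  have hbij : Function.Bijective (ZMod.castHom (dvd_refl p) (𝓞 M ⧸ I)) := by
    refine ⟨RingHom.injective _, ?_⟩
    intro y
    obtain ⟨α, rfl⟩ := Ideal.Quotient.mk_surjective y
    obtain ⟨m, hm⟩ := hres α
    refine ⟨(m : ZMod p), ?_⟩
    rw [map_intCast]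
    rw [← Ideal.Quotient.eq] at hm
    rw [hm, map_intCast]
  have h2 := Nat.card_congr (Equiv.ofBijective _ hbij)
  rw [Nat.card_zmod] at h2
  rw [Ideal.absNorm_apply, Submodule.cardQuot_apply]
  exact h2.symm

theorem FD1_main (β : 𝓞 M) (D : ℕ) (hD : ∀ α : 𝓞 M, ∃ g : ℤ[X], (D : 𝓞 M) * α = aeval β g)
    (p : ℕ) (hp : p.Prime) (hpD : ¬ p ∣ D) :
    nid M p = Nat.card {a : ZMod p // aeval a (minpoly ℤ β) = 0} := by
  have hF : Fact p.Prime := ⟨hp⟩
  have hmemp : ∀ I : Ideal (𝓞 M), Ideal.absNorm I = p → (p : 𝓞 M) ∈ I := by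
    intro I hI
    have := Ideal.absNorm_mem I
    rwa [hI] at this
  have htop : ∀ I : Ideal (𝓞 M), Ideal.absNorm I = p → I ≠ ⊤ := by
    intro I hI h
    rw [h, Ideal.absNorm_top] at hI
    exact hp.one_lt.ne hI
  have hroot : ∀ (I : Ideal (𝓞 M)) (hI : Ideal.absNorm I = p) (n : ℤ), β - (n : 𝓞 M) ∈ I →
      aeval (n : ZMod p) (minpoly ℤ β) = 0 := by
    intro I hI n hn
    have h1 := FD1_sub I β n hn (minpoly ℤ β)
    rw [minpoly.aeval, zero_sub, neg_mem_iff] at h1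
    rw [FD1_dvd I p hp (hmemp I hI) (htop I hI)] at h1
    rw [FD1_ev, ZMod.intCast_zmod_eq_zero_iff_dvd]
    exact h1
  let F : {I : Ideal (𝓞 M) // Ideal.absNorm I = p} → {a : ZMod p // aeval a (minpoly ℤ β) = 0} := fun I =>
    ⟨(((KE6_int I.1 p hp I.2 β).choose : ℤ) : ZMod p),
      hroot I.1 I.2 _ (KE6_int I.1 p hp I.2 β).choose_spec⟩
  have hbij : Function.Bijective F := by
    constructor
    · rintro ⟨I, hI⟩ ⟨J, hJ⟩ h
      have h1 : (((KE6_int I p hp hI β).choose : ℤ) : ZMod p) = (((KE6_int J p hp hJ β).choose : ℤ) : ZMod p) :=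
        congrArg Subtype.val h
      have hnI := (KE6_int I p hp hI β).choose_spec
      have hnJ := (KE6_int J p hp hJ β).choose_spec
      generalize (KE6_int I p hp hI β).choose = n at h1 hnI
      generalize (KE6_int J p hp hJ β).choose = m at h1 hnJ
      rw [← sub_eq_zero, ← Int.cast_sub, ZMod.intCast_zmod_eq_zero_iff_dvd] at h1
      have h2 : β - (n : 𝓞 M) ∈ J := by
        have h3 := (FD1_dvd J p hp (hmemp J hJ) (htop J hJ) (n - m)).2 h1
        have h4 := J.sub_mem hnJ h3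
        have h5 : β - (m : 𝓞 M) - ((n - m : ℤ) : 𝓞 M) = β - (n : 𝓞 M) := by
          push_cast
          ring
        rwa [h5] at h4
      apply Subtype.ext
      apply Ideal.ext
      intro x
      obtain ⟨g, hg⟩ := hD x
      rw [FD1_mem I p D hp hpD (hmemp I hI) (htop I hI) β n hnI x g hg,
        FD1_mem J p D hp hpD (hmemp J hJ) (htop J hJ) β n h2 x g hg]
    · rintro ⟨a, ha⟩
      obtain ⟨n, rfl⟩ : ∃ n : ℤ, (n : ZMod p) = a := ⟨(a.val : ℤ), by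
        rw [Int.cast_natCast, ZMod.natCast_zmod_val]⟩
      rw [FD1_ev, ZMod.intCast_zmod_eq_zero_iff_dvd] at ha
      let I : Ideal (𝓞 M) := Ideal.span {(p : 𝓞 M), β - (n : 𝓞 M)}
      have hpI : (p : 𝓞 M) ∈ I := Ideal.subset_span (by simp)
      have hnI : β - (n : 𝓞 M) ∈ I := Ideal.subset_span (by simp)
      have hI1 : I ≠ ⊤ := by
        intro h
        rw [Ideal.eq_top_iff_one, Ideal.mem_span_pair] at h
        obtain ⟨x, y, hxy⟩ := h
        obtain ⟨g, hg⟩ := hD x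
        obtain ⟨k, hk⟩ := hD y
        have h1 : aeval β (C (D : ℤ) - (g * C (p : ℤ) + k * (X - C n))) = 0 := by
          rw [map_sub, map_add, map_mul, map_mul, map_sub, aeval_X, aeval_C, aeval_C, aeval_C, eq_intCast,
            eq_intCast, eq_intCast, ← hg, ← hk]
          push_cast
          linear_combination (-(D : 𝓞 M)) * hxy
        have h2 : minpoly ℤ β ∣ (C (D : ℤ) - (g * C (p : ℤ) + k * (X - C n))) :=
          minpoly.isIntegrallyClosed_dvd β.isIntegral h1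
        obtain ⟨q, hq⟩ := h2
        have h3 := congrArg (fun t : ℤ[X] => t.eval n) hq
        simp only [eval_sub, eval_add, eval_mul, eval_C, eval_X, sub_self, mul_zero, add_zero] at h3
        have h4 : (p : ℤ) ∣ (D : ℤ) := by
          have h5 : (D : ℤ) = (minpoly ℤ β).eval n * q.eval n + g.eval n * p := by
            linear_combination h3
          rw [h5]
          exact dvd_add (Dvd.dvd.mul_right ha _) (Dvd.intro_left _ rfl)
        exact hpD (Int.natCast_dvd_natCast.1 h4)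
      have hI : Ideal.absNorm I = p := FD1_card I p hp hpI hI1 (FD1_res I p D hp hpD hpI β n hnI hD)
      refine ⟨⟨I, hI⟩, ?_⟩
      apply Subtype.ext
      change (((KE6_int I p hp hI β).choose : ℤ) : ZMod p) = (n : ZMod p)
      have hm := (KE6_int I p hp hI β).choose_spec
      generalize (KE6_int I p hp hI β).choose = m at hm
      rw [← sub_eq_zero, ← Int.cast_sub, ZMod.intCast_zmod_eq_zero_iff_dvd,
        ← FD1_dvd I p hp hpI hI1]
      have h4 := I.sub_mem hnI hm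
      have h5 : β - (n : 𝓞 M) - (β - (m : 𝓞 M)) = ((m - n : ℤ) : 𝓞 M) := by
        push_cast
        ring
      rwa [h5] at h4
  exact Nat.card_congr (Equiv.ofBijective F hbij)

theorem FD1 : FD1_stmt := by
  intro M _ _ β hβ
  obtain ⟨D, hD0, hD⟩ := FD1_den β hβ
  exact ⟨D, hD0, fun p hp hpD => FD1_main β D hD p hp hpD⟩

end

end Pool.Agent.TI
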